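import Pool.Agent.P8H70.TR.Stm2
import Pool.Agent.P8H21.TR.Pair

/-!
# Project TR of helper70, package PAIR2 (after `Pool.Agent.P8H21.TR.Pair` of helper21)
-/

set_option autoImplicit false

open Complex MeasureTheory Finset ComplexConjugate

namespace Pool.Agent.P8H59.TR

open Pool.Agent.P8H70.TR

/-- the substitution `ω ↦ j ω`. -/
lemma sub2 (q : ℕ) [NeZero q] (hq : q.Prime) (n : ℕ) (hn : n < q) (k : ℕ) (J : Finset ℕ)
    (hJ : ∀ j ∈ J, 1 ≤ j ∧ j ≤ n) (g h : (Fin k → ZMod q) → ℂ) (j : ℕ) (hj : j ∈ J) :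
    ∑ ω : Fin k → ZMod q, g (mu q j ω) * conj (h (mu q j ω)) =
      ∑ ω : Fin k → ZMod q, g ω * conj (h ω) := by
  have : Fact q.Prime := ⟨hq⟩
  have hj0 : (j : ZMod q) ≠ 0 := by
    rw [Ne, ZMod.natCast_eq_zero_iff]
    intro hdvd
    have := Nat.le_of_dvd (by have := (hJ j hj).1; omega) hdvd
    have := (hJ j hj).2
    omega
  have hbij : Function.Bijective (fun ω : Fin k → ZMod q => mu q j ω) := by
    constructor
    · intro x y hxy
      funext i
      have := congrFun hxy i
      exact mul_left_cancel₀ hj0 this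
    · intro y
      refine ⟨fun i => (j : ZMod q)⁻¹ * y i, ?_⟩
      funext i
      show (j : ZMod q) * ((j : ZMod q)⁻¹ * y i) = y i
      rw [mul_inv_cancel_left₀ hj0]
  exact Function.Bijective.sum_comp hbij (fun ω => g ω * conj (h ω))

/-- package PAIR2. -/
theorem pair2 : S_PAIR2 := by
  classical
  intro q _ n k J hq hn hJ g h b hb
  have hJn : J ⊆ range (n + 1) := by
    intro j hj
    rw [Finset.mem_range]
    have := (hJ j hj).2
    omega
  have h1 : ∀ ω : Fin k → ZMod q, ∫ t in (0 : ℝ)..(2 * Real.pi), tp n (fun j => b j ω) t *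
      conj (tp n (fun j => if j ∈ J then h (mu q j ω) else 0) t) =
      2 * Real.pi * ∑ j ∈ J, g (mu q j ω) * conj (h (mu q j ω)) := by
    intro ω
    rw [Pool.Agent.P8H21.TR.Pair.parseval]
    congr 1
    rw [← Finset.sum_subset hJn]
    · refine Finset.sum_congr rfl fun j hj => ?_
      rw [if_pos hj, hb j hj ω]
    · intro j _ hj
      rw [if_neg hj, map_zero, mul_zero]
  simp_rw [h1]
  have key : ∑ j ∈ J, ∑ ω : Fin k → ZMod q, g (mu q j ω) * conj (h (mu q j ω)) =
      (J.card : ℂ) * ∑ ω : Fin k → ZMod q, g ω * conj (h ω) := by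
    rw [← nsmul_eq_mul, ← Finset.sum_const]
    refine Finset.sum_congr rfl fun j hj => ?_
    exact sub2 q hq n hn k J hJ g h j hj
  rw [← Finset.mul_sum, Finset.sum_comm, key, ← mul_assoc]

end Pool.Agent.P8H59.TR
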